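import Pool.Agent.H40.Zr3

set_option autoImplicit false

namespace Pool.Agent.Results.MP_f5c99b_lc.Yes

open Pool.Agent.H40.Bspt Pool.Agent.H40.Jz Pool.Agent.H40.Zt Classical

variable {M : Type} {E : M → M → Prop}

variable (E) in
noncomputable abbrev val (f x : M) : M := the x fun y => App E f x y

theorem ex_J (h : IsZF E) (X T' : M) : ∃ J, (∀ f, E f J → (∀ x, E x X → IsNat E (val E f x)) ∧
      ∀ x, E x X → Nr E X T' x fun y => val E f y = val E f x) ∧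
    ∀ k : M → M, T1 E k → (∀ x, E x X → IsNat E (k x)) →
      (∀ x, E x X → Nr E X T' x fun y => k y = k x) → ∃ f, E f J ∧ ∀ x, E x X → val E f x = k x := by
  obtain ⟨w, hw⟩ := h.omega'
  obtain ⟨c, hc⟩ := ex_prod h X w
  obtain ⟨P, hP⟩ := h.power c
  obtain ⟨J, hJ⟩ := sep h (fun f => (∀ x, E x X → IsNat E (val E f x)) ∧
      ∀ x, E x X → Nr E X T' x fun y => val E f y = val E f x) P
  refine ⟨J, fun f a => ((hJ f).1 a).2, fun k _ a b => ?_⟩
  have := @t1 _ E k _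
  obtain ⟨f, hf⟩ := sep h (fun p => ∃ x, p = pr E x (k x)) c
  have e : ∀ x, E x X → val E f x = k x := fun x d => the_eq ((app_pr h).2 ((hf _).2
    ⟨hc _ _ d ((hw _).2 (a x d)), x, rfl⟩)) fun z g => by
      obtain ⟨-, y, i⟩ := (hf _).1 ((app_pr h).1 g)
      obtain ⟨rfl, rfl⟩ := pr_inj h i
      rfl
  exact ⟨f, (hJ f).2 ⟨(hP f).2 fun y d => ((hf y).1 d).1, fun x d => e x d ▸ a x d, fun x d =>
    (b x d).mono fun y g i => by rw [e x d, e y g, i]⟩, e⟩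

theorem result (M : Type) (E : M → M → Prop) (h : IsZF E) (ℛ : Reals E) (X T' : M)
    (t : IsTop E X T') (ty : Tychonoff ℛ X T') (z : StrZD ℛ X T') (rc : Realcompact ℛ X T') :
    NCompact E X T' := by
  obtain ⟨J, j1, j2⟩ := ex_J h X T'
  obtain ⟨w, hw⟩ := h.omega'
  obtain ⟨o, ho⟩ := h.emp
  have zd : ∀ U x, E U T' → E x X → E x U → ∃ f, E f J ∧ ∀ y, E y X → val E f y = val E f x → E y U := by
    intro U x a b c
    obtain ⟨F, hF⟩ := sep h (¬ E · U) X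
    obtain ⟨φ, p1, p2, p3, p4⟩ := ty.2 F ⟨x, b⟩ ⟨fun y d => ((hF y).1 d).1, fun y d e =>
      ⟨U, a, by_contra fun g => e ((hF y).2 ⟨d, g⟩), fun u g i => ((hF u).1 i).2 g⟩⟩
      fun d => ((hF x).1 d).2 c
    obtain ⟨A, hA⟩ := sep h (· = x) X
    obtain ⟨C, c1, c2, c3⟩ := z A F (fun y d => ((hA y).1 d).1) (fun y d => ((hF y).1 d).1)
      ⟨φ, p1, p2, fun y d => (Subtype.ext ((hA _).1 d).2 : y = ⟨x, b⟩) ▸ p3, p4⟩
    obtain ⟨f, f1, f2⟩ := j2 (fun x => if E x C then o else sc E o) inferInstance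
      (fun x _ => by split_ifs; exacts [h.nat0 ho, nat_sc h (h.nat0 ho)])
      fun x a => Nr.mono (c1.2 x a) fun y _ d => by simp only [d]
    refine ⟨f, f1, fun y d e => by_contra fun g => ?_⟩
    rw [f2 y d, f2 x b, if_pos (c2 x ((hA x).2 ⟨b, rfl⟩)),
      if_neg fun i => c3 y i ((hF y).2 ⟨d, g⟩)] at e
    exact sc_ne h e.symm
  refine ⟨J, fun x j => ⟨val E j.1 x.1, (j1 _ j.2).1 _ x.2⟩,
    (j2 (fun _ => o) inferInstance (fun _ _ => h.nat0 ho) fun x a =>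
      ⟨X, t.2.1, a, fun _ _ _ => rfl⟩).imp fun _ => And.left,
    intl2_of h (W := w) (fun x j => val E j x) fun x j a b => (hw _).2 ((j1 _ b).1 _ a),
    fun x y e => by_contra fun a => ?_, fun x j => ((j1 _ j.2).2 _ x.2).imp fun U a =>
      ⟨a.1, a.2.1, fun y b => Subtype.ext (a.2.2 y.1 y.2 b)⟩, fun U x a b => ?_, fun g a b => ?_⟩
  · obtain ⟨U, b, c, d⟩ := ty.1 x.1 y.1 x.2 y.2 fun b => a (Subtype.ext b)
    obtain ⟨f, f1, f2⟩ := zd U x.1 b x.2 c
    exact d (f2 y.1 y.2 (congrArg Subtype.val (congrFun e ⟨f, f1⟩)).symm)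
  · obtain ⟨f, f1, f2⟩ := zd U x.1 a x.2 b
    obtain ⟨F, c, d⟩ := few_one h (P := (· = f)) fun _ _ e f => e.trans f.symm
    exact ⟨F, c, fun y e => f2 y.1 y.2 (congrArg Subtype.val (e ⟨f, f1⟩ (d f rfl)))⟩
  obtain ⟨γ, _, hγ⟩ := intl_t h a
  have := @t1 _ E γ _
  let A : M → M → Prop := fun f x => E f J → val E f x = γ f
  have : D2 E A := inferInstance
  have ne : ∀ F, IsFin E F → ∃ x, E x X ∧ ∀ f, E f F → A f x := fun F c =>
    (b F c).elim fun x d => ⟨x.1, x.2, fun f e i =>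
      (congrArg Subtype.val (d ⟨f, i⟩ e)).trans (hγ ⟨f, i⟩).symm⟩
  have key : ∀ k : M → M, T1 E k → (∀ x, E x X → IsNat E (k x)) →
      (∀ x, E x X → Nr E X T' x fun y => k y = k x) →
      ∃ f, ∀ x y, E x X → E y X → A f x → A f y → k x = k y := fun k i c d =>
    (j2 k i c d).imp fun f e x y p q r s => by rw [← e.2 x p, ← e.2 y q, r e.1, s e.1]
  have a1 : ∀ (f : Ex E J) x, A f.1 x → val E f.1 x = (g f).1 := fun f x c => (c f.2).trans (hγ f)
  clear_value A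
  have := @l2 _ E A _
  obtain ⟨K, e, e1, -, e3, e4, e5⟩ := rc
  obtain ⟨H, _, hH⟩ := intl2_r ℛ e1
  have := @tR2 _ _ ℛ H _
  let y : M → Ex E ℛ.R := fun j => su ℛ fun p => Big E X A fun x => p ≤ H x j
  have : T1 E fun j => (y j).1 := inferInstance
  have y1 : ∀ j, E j K → ∀ ε > 0, Big E X A fun x => |H x j - y j| < ε := fun j c ε d =>
    big_cv h t z ne key (fun x => H x j) (fun x p ε q => (e3 ⟨x, p⟩ ⟨j, c⟩ ε q).imp fun U r =>
      ⟨r.1, r.2.1, fun u s v => by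
        have := r.2.2 ⟨u, s⟩ v
        rwa [← hH, ← hH] at this⟩) d
  clear_value y
  have := @tR _ _ ℛ y _
  have y2 : ∀ F, IsFin E F → ∀ ε > 0,
      Big E X A fun x => ∀ j, E j F → E j K → |H x j - y j| < ε := fun F c ε d =>
    finI h (fun F => Big E X A fun x => ∀ j, E j F → E j K → |H x j - y j| < ε)
      (fun u p => ⟨u, h.fin0 p, fun _ _ _ j q => absurd q (p j)⟩) (fun u j s _ p q => by
        by_cases r : E j K
        · exact (Big.and h p (y1 j r ε d)).mono fun x _ v i l m =>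
            ((q i).1 l).elim (v.1 i · m) (· ▸ v.2)
        · exact p.mono fun x _ v i l m => ((q i).1 l).elim (v i · m) fun n => absurd (n ▸ m) r) F c
  obtain ⟨x, hx⟩ := e5 (fun j => y j.1) (intl_of h (W := ℛ.R) (fun j => (y j).1) fun j _ => (y j).2)
    fun F c ε d => ((y2 F c ε d).ex ne).elim fun x p => ⟨⟨x, p.1⟩, fun j q => by
      rw [← hH]; exact p.2 j.1 q j.2⟩
  refine ⟨x, funext fun f => Subtype.ext ?_⟩
  obtain ⟨U, c, d, p⟩ := (j1 _ f.2).2 _ x.2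
  obtain ⟨F, q, ε, r, s⟩ := e4 U x c d
  obtain ⟨u, v, i⟩ := (Big.and h (y2 F q ε r) (big_one h f.1)).ex ne
  exact (p u v (s ⟨u, v⟩ fun j l => by rw [hx, ← hH]; exact i.1 j.1 l j.2)).symm.trans (a1 f u i.2)

end Pool.Agent.Results.MP_f5c99b_lc.Yes
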